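import Pool.Agent.Helper96.GU.St

/-!
Project GU: module ABS (injectivity over an infinite cyclic cover).
-/

set_option autoImplicit false

namespace Pool.Agent.Helper15.GU

open Pool.Agent.Helper96.UT hiding StTOP TopV TopE tht Bd VC EC
open Pool.Agent.Helper96.GU

private theorem mdsub_ABS {I J : Type} (f : I → J) (x y : I →₀ ℚ) :
    (x - y).mapDomain f = x.mapDomain f - y.mapDomain f :=
  map_sub (Finsupp.lmapDomain ℚ ℚ f) x y

/-- support of a difference -/
private theorem supp_sub_ABS {I : Type} {x y : I →₀ ℚ} {P : I → Prop}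
    (hx : ∀ i ∈ x.support, P i) (hy : ∀ i ∈ y.support, P i) : ∀ i ∈ (x - y).support, P i := by
  classical
  intro i hi
  have := Finsupp.support_sub hi
  rcases Finset.mem_union.1 this with h | h
  · exact hx i h
  · exact hy i h

private theorem supp_add_ABS {I : Type} {x y : I →₀ ℚ} {P : I → Prop}
    (hx : ∀ i ∈ x.support, P i) (hy : ∀ i ∈ y.support, P i) : ∀ i ∈ (x + y).support, P i := by
  classical
  intro i hi
  have := Finsupp.support_add hi
  rcases Finset.mem_union.1 this with h | h
  · exact hx i h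
  · exact hy i h

/-- (D) -/
private theorem D_ABS {I I' : Type} (p : I' → I) (h : I' → ℤ) (t s : I' → I')
    (hpt : ∀ i, p (t i) = p i) (hinj : ∀ i j, p i = p j → h i = h j → i = j)
    (hts : ∀ i, t (s i) = i) (hps : ∀ i, p (s i) = p i) (hhs : ∀ i, h (s i) = h i - 1)
    (G : Set I) (a : ℤ) (N : ℕ) : ∀ y : I' →₀ ℚ,
    (∀ i ∈ y.support, a ≤ h i ∧ h i ≤ a + N ∧ p i ∈ G) → y.mapDomain p = 0 →
    ∃ z : I' →₀ ℚ, (∀ i ∈ z.support, a ≤ h i ∧ h i < a + N ∧ p i ∈ G) ∧
      y = z.mapDomain t - z := by
  classical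
  induction N with
  | zero =>
    intro y hy hp
    have hy0 : y = 0 := by
      have hI : Set.InjOn p {i | h i = a} := by
        intro i hi j hj hij
        exact hinj i j hij (by rw [Set.mem_setOf_eq] at hi hj; rw [hi, hj])
      refine Finsupp.mapDomain_injOn {i | h i = a} hI ?_ ?_ ?_
      · intro i hi
        have := hy i hi
        simp only [Nat.cast_zero, add_zero] at this
        rw [Set.mem_setOf_eq]
        omega
      · intro i hi
        simp at hi
      · rw [hp, Finsupp.mapDomain_zero]
    refine ⟨0, by simp, ?_⟩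
    rw [hy0, Finsupp.mapDomain_zero, sub_zero]
  | succ N ih =>
    intro y hy hp
    obtain ⟨y₁, hy₁⟩ : ∃ y₁, y₁ = y.filter (fun i => h i = a + N + 1) := ⟨_, rfl⟩
    obtain ⟨y₂, hy₂⟩ : ∃ y₂, y₂ = y.filter (fun i => ¬ h i = a + N + 1) := ⟨_, rfl⟩
    have hsum : y₁ + y₂ = y := by
      rw [hy₁, hy₂]
      exact Finsupp.filter_pos_add_filter_neg y _
    have hy₁s : ∀ i ∈ y₁.support, h i = a + N + 1 ∧ p i ∈ G := by
      intro i hi
      rw [hy₁, Finsupp.support_filter, Finset.mem_filter] at hi
      exact ⟨hi.2, (hy i hi.1).2.2⟩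
    have hy₂s : ∀ i ∈ y₂.support, a ≤ h i ∧ h i ≤ a + N ∧ p i ∈ G := by
      intro i hi
      rw [hy₂, Finsupp.support_filter, Finset.mem_filter] at hi
      have h1 := hy i hi.1
      push_cast at h1
      refine ⟨h1.1, ?_, h1.2.2⟩
      have h2 := hi.2
      omega
    obtain ⟨z₁, hz₁⟩ : ∃ z₁, z₁ = y₁.mapDomain s := ⟨_, rfl⟩
    have hz₁s : ∀ i ∈ z₁.support, a ≤ h i ∧ h i ≤ a + N ∧ p i ∈ G := by
      intro i hi
      rw [hz₁] at hi
      have := Finsupp.mapDomain_support hi
      obtain ⟨j, hj, rfl⟩ := Finset.mem_image.1 this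
      have h1 := hy₁s j hj
      rw [hhs, hps]
      refine ⟨?_, ?_, h1.2⟩
      · have := h1.1
        omega
      · have := h1.1
        omega
    have htz₁ : z₁.mapDomain t = y₁ := by
      rw [hz₁, ← Finsupp.mapDomain_comp]
      have : t ∘ s = id := by
        funext i
        exact hts i
      rw [this, Finsupp.mapDomain_id]
    have hpz₁ : z₁.mapDomain p = y₁.mapDomain p := by
      rw [hz₁, ← Finsupp.mapDomain_comp]
      have : p ∘ s = p := by
        funext i
        exact hps i
      rw [this]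
    obtain ⟨z', hz's, hz'⟩ := ih (y₂ + z₁) (supp_add_ABS hy₂s hz₁s) (by
      rw [Finsupp.mapDomain_add, hpz₁, ← Finsupp.mapDomain_add, add_comm, hsum, hp])
    refine ⟨z' + z₁, supp_add_ABS ?_ ?_, ?_⟩
    · intro i hi
      have h1 := hz's i hi
      push_cast
      exact ⟨h1.1, by omega, h1.2.2⟩
    · intro i hi
      have h1 := hz₁s i hi
      push_cast
      exact ⟨h1.1, by omega, h1.2.2⟩
    · rw [Finsupp.mapDomain_add, htz₁, ← hsum]
      have h3 : z'.mapDomain t = y₂ + z₁ + z' := by
        rw [hz']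
        abel
      rw [h3]
      abel

theorem tABS : StABS := by
  classical
  intro I J I' J' T T' p h t p' h' t' hpt hht hinj hsur hh't' ht' hTt hTp G hG
  -- the inverse of `t`
  choose s hts using hsur
  have hps : ∀ i, p (s i) = p i := by
    intro i
    rw [← hpt (s i), hts]
  have hhs : ∀ i, h (s i) = h i - 1 := by
    intro i
    have := hht (s i)
    rw [hts] at this
    omega
  -- (E)
  have hE : ∀ z : J' →₀ ℚ, z.mapDomain t' = z → z = 0 := by
    intro z hz
    by_contra hne
    obtain ⟨j, hj, hmax⟩ := Finset.exists_max_image z.support h' (Finsupp.support_nonempty_iff.2 hne)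
    have h1 : z (t' j) = z j := by
      conv_lhs => rw [← hz]
      exact Finsupp.mapDomain_apply ht' z j
    have h2 : t' j ∈ z.support := by
      rw [Finsupp.mem_support_iff, h1]
      exact Finsupp.mem_support_iff.1 hj
    have h3 := hmax (t' j) h2
    rw [hh't'] at h3
    omega
  -- the main claim
  have main : ∀ (N : ℕ) (a : ℤ) (x : I' →₀ ℚ),
      (∀ i ∈ x.support, a ≤ h i ∧ h i < a + N ∧ p i ∈ G) → T' x = 0 → x = 0 := by
    intro N
    induction N with
    | zero =>
      intro a x hx _
      by_contra hne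
      obtain ⟨i, hi⟩ := Finsupp.support_nonempty_iff.2 hne
      have := hx i hi
      simp only [Nat.cast_zero, add_zero] at this
      omega
    | succ N ih =>
      intro a x hx hTx
      have hpx : x.mapDomain p = 0 := by
        apply hG
        · intro i hi
          have := Finsupp.mapDomain_support hi
          obtain ⟨j, hj, rfl⟩ := Finset.mem_image.1 this
          exact (hx j hj).2.2
        · rw [← hTp, hTx, Finsupp.mapDomain_zero]
      obtain ⟨z, hzs, hz⟩ := D_ABS p h t s hpt hinj hts hps hhs G a N x (by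
        intro i hi
        have h1 := hx i hi
        push_cast at h1
        exact ⟨h1.1, by omega, h1.2.2⟩) hpx
      have hTz : T' z = 0 := by
        apply hE
        have h1 : T' x = (T' z).mapDomain t' - T' z := by
          rw [hz, map_sub, hTt]
        rw [hTx] at h1
        exact (sub_eq_zero.1 h1.symm)
      have hz0 := ih a z hzs hTz
      rw [hz, hz0, Finsupp.mapDomain_zero, sub_zero]
  intro x hx hTx
  obtain ⟨B, hB⟩ : ∃ B : ℕ, ∀ i ∈ x.support, (h i).natAbs ≤ B :=
    ⟨x.support.sup (fun i => (h i).natAbs), fun i hi => Finset.le_sup (f := fun i => (h i).natAbs) hi⟩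
  refine main (2 * B + 1) (-(B : ℤ)) x ?_ hTx
  intro i hi
  have h1 := hB i hi
  refine ⟨by omega, by push_cast; omega, hx i hi⟩

end Pool.Agent.Helper15.GU
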