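import Pool.Agent.Helper91.GU.StB

/-!
# Project GU, module B6: lemma W
-/

set_option autoImplicit false

namespace Pool.Agent.Helper15.GU

open Polynomial
open Matrix hiding row
open Pool.Agent.Helper91.GU

universe u

section basic

variable {A : Type u} [CommRing A] {n : Type} [Fintype n] [DecidableEq n]

theorem mkREq {v w : n → A} (g g' : Matrix n n A) (h : g * g' = 1) (hv : Matrix.vecMul v g = w) :
    REq v w := ⟨g, Matrix.isUnit_det_of_right_inverse h, hv⟩

theorem refl' (v : n → A) : REq v v := mkREq 1 1 (by simp) (by simp)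

theorem symm' {v w : n → A} (h : REq v w) : REq w v := by
  obtain ⟨g, hg, hv⟩ := h
  refine mkREq g⁻¹ g (Matrix.nonsing_inv_mul g hg) ?_
  rw [← hv, Matrix.vecMul_vecMul, Matrix.mul_nonsing_inv g hg, Matrix.vecMul_one]

theorem trans' {v w x : n → A} (h : REq v w) (h' : REq w x) : REq v x := by
  obtain ⟨g, hg, hv⟩ := h
  obtain ⟨g', hg', hv'⟩ := h'
  refine ⟨g * g', ?_, ?_⟩
  · rw [Matrix.det_mul]; exact hg.mul hg'
  · rw [← Matrix.vecMul_vecMul, hv, hv']

theorem um' {v w : n → A} (h : REq v w) (hu : Um v) : Um w := by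
  obtain ⟨g, hg, hv⟩ := h
  obtain ⟨y, hy⟩ := hu
  refine ⟨Matrix.mulVec g⁻¹ y, ?_⟩
  rw [← hv, Matrix.dotProduct_mulVec, Matrix.vecMul_vecMul, Matrix.mul_nonsing_inv g hg,
    Matrix.vecMul_one, hy]

/-- adding multiples of one entry to the others -/
theorem addv (v : n → A) (i : n) (d : n → A) (hd : d i = 0) : REq v (fun k => v k + v i * d k) := by
  have h1 : d ⬝ᵥ (Pi.single i (1 : A)) = 0 := by simp [hd]
  have h2 : v ⬝ᵥ (Pi.single i (1 : A)) = v i := by simp
  refine mkREq (1 + Matrix.vecMulVec (Pi.single i 1) d) (1 - Matrix.vecMulVec (Pi.single i 1) d)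
    ?_ ?_
  · have h3 : Matrix.vecMulVec (Pi.single i (1 : A)) d * Matrix.vecMulVec (Pi.single i (1 : A)) d
        = 0 := by
      rw [Matrix.vecMulVec_mul_vecMulVec, h1]
      simp
    have h4 : (1 + Matrix.vecMulVec (Pi.single i (1 : A)) d)
        * (1 - Matrix.vecMulVec (Pi.single i (1 : A)) d) = 1
        - Matrix.vecMulVec (Pi.single i (1 : A)) d * Matrix.vecMulVec (Pi.single i (1 : A)) d := by
      noncomm_ring
    rw [h4, h3, sub_zero]
  · rw [Matrix.vecMul_add, Matrix.vecMul_one, Matrix.vecMul_vecMulVec, h2]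
    ext k
    simp

/-- one Whitehead step -/
theorem step (v : n → A) (i₀ i₁ j : n) (h01 : i₀ ≠ i₁) (h0j : i₀ ≠ j) (h1j : i₁ ≠ j)
    (p q w : A) (hpq : p * w + q * v i₁ = 1) :
    REq v (fun k => if k = i₀ then v k * w else if k = j then v k * p else v k) := by
  set x := v i₀ with hx
  set y := v j with hy
  set c := v i₁ with hc
  have e0 := addv v i₀ (Pi.single j 1) (by simp [h0j])
  set v1 : n → A := fun k => v k + v i₀ * (Pi.single j 1 : n → A) k with hv1
  have e1 := addv v1 j (Pi.single i₀ (w - 1)) (by simp [h0j.symm])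
  set v2 : n → A := fun k => v1 k + v1 j * (Pi.single i₀ (w - 1) : n → A) k with hv2
  have e2 := addv v2 i₀ (Pi.single j (-p)) (by simp [h0j])
  set v3 : n → A := fun k => v2 k + v2 i₀ * (Pi.single j (-p) : n → A) k with hv3
  have e3 := addv v3 j (Pi.single i₀ (-((w - 1) * w))) (by simp [h0j.symm])
  set v4 : n → A := fun k => v3 k + v3 j * (Pi.single i₀ (-((w - 1) * w)) : n → A) k with hv4
  have e4 := addv v4 i₁ (fun k => if k = i₀ then -q * ((w - 1) * y - (w - 1) * w * (x + y))
    else if k = j then -q * (x + y) else 0) (by simp [h01.symm, h1j])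
  refine trans' e0 (trans' e1 (trans' e2 (trans' e3 ?_)))
  refine trans' e4 ?_
  have key : (fun k => v4 k + v4 i₁ * (if k = i₀ then -q * ((w - 1) * y - (w - 1) * w * (x + y))
    else if k = j then -q * (x + y) else 0))
      = (fun k => if k = i₀ then v k * w else if k = j then v k * p else v k) := by
    funext k
    have h10 := h01.symm
    have hj0 := h0j.symm
    have hj1 := h1j.symm
    have hc' : q * c = 1 - p * w := by linear_combination hpq
    have a1 : v4 i₁ = c := by
      simp [hv4, hv3, hv2, hv1, h10, h1j, ← hc]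
    have b1 : v1 i₀ = x := by simp [hv1, h0j, ← hx]
    have b2 : v1 j = y + x := by simp [hv1, ← hx, ← hy]
    have b3 : v2 i₀ = x + (y + x) * (w - 1) := by simp [hv2, b1, b2]
    have b4 : v2 j = y + x := by simp [hv2, b2, hj0]
    have b5 : v3 i₀ = x + (y + x) * (w - 1) := by simp [hv3, b3, h0j]
    have b6 : v3 j = y + x + (x + (y + x) * (w - 1)) * (-p) := by simp [hv3, b3, b4]
    rw [a1]
    by_cases hk0 : k = i₀
    · subst hk0
      have b7 : v4 k = x + (y + x) * (w - 1)
          + (y + x + (x + (y + x) * (w - 1)) * (-p)) * (-((w - 1) * w)) := by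
        simp only [hv4, b5, b6, Pi.single_eq_same]
      simp only [if_true, b7, ← hx]
      linear_combination (-((w - 1) * y - (w - 1) * w * (x + y))) * hc'
    · by_cases hkj : k = j
      · subst hkj
        have b7 : v4 k = y + x + (x + (y + x) * (w - 1)) * (-p) := by
          simp [hv4, b6, hj0]
        simp only [hk0, if_false, if_true, b7, ← hy]
        linear_combination (-(x + y)) * hc'
      · simp [hk0, hkj, hv4, hv3, hv2, hv1]
  rw [key]
  exact refl' _

/-- several Whitehead steps -/
theorem stepS (v : n → A) (i₀ i₁ : n) (h01 : i₀ ≠ i₁) (p q w : A) (hpq : p * w + q * v i₁ = 1)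
    (S : Finset n) : i₀ ∉ S → i₁ ∉ S →
    REq v (fun k => if k = i₀ then v k * w ^ S.card else if k ∈ S then v k * p else v k) := by
  induction S using Finset.induction_on with
  | empty =>
    intro _ _
    have : (fun k => if k = i₀ then v k * w ^ (∅ : Finset n).card
      else if k ∈ (∅ : Finset n) then v k * p else v k) = v := by
      funext k
      simp
    rw [this]
    exact refl' v
  | insert j S hj ih =>
    intro h0 h1
    rw [Finset.mem_insert, not_or] at h0 h1
    have e1 := ih h0.2 h1.2
    refine trans' e1 ?_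
    have e2 := step (fun k => if k = i₀ then v k * w ^ S.card else if k ∈ S then v k * p else v k)
      i₀ i₁ j h01 h0.1 h1.1 p q w (by simpa [h01.symm, h1.2] using hpq)
    refine trans' e2 ?_
    have key : (fun k => if k = i₀ then
        (if k = i₀ then v k * w ^ S.card else if k ∈ S then v k * p else v k) * w
        else if k = j then
          (if k = i₀ then v k * w ^ S.card else if k ∈ S then v k * p else v k) * p
        else (if k = i₀ then v k * w ^ S.card else if k ∈ S then v k * p else v k))
        = (fun k => if k = i₀ then v k * w ^ (insert j S).card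
          else if k ∈ insert j S then v k * p else v k) := by
      funext k
      by_cases hk0 : k = i₀
      · simp only [hk0, if_true, Finset.card_insert_of_notMem hj]
        ring
      · by_cases hkj : k = j
        · subst hkj
          simp [hk0, hj]
        · simp [hk0, hkj]
    rw [key]
    exact refl' _

/-- multiplication of all other entries by a unit modulo one entry -/
theorem scale (v : n → A) (i₁ : n) (p q w : A) (hpq : p * w + q * v i₁ = 1) (hu : Um v) :
    REq (fun k => if k = i₁ then v k else w * v k) v := by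
  obtain ⟨y, hy⟩ := hu
  set c := v i₁ with hc
  set v' : n → A := fun k => if k = i₁ then v k else w * v k with hv'
  set y' : n → A := fun k => if k = i₁ then q + p * w * y k else p * y k with hy'
  set e : n → A := Pi.single i₁ 1 with he
  -- `φ = w e⊗e + (1 - e⊗e)`
  set φ : Matrix n n A := 1 + Matrix.vecMulVec ((w - 1) • e) e with hφ
  -- `ψ = 1 + e ⊗ (p e - q (v - c e) - e)`
  set ψ : Matrix n n A := 1 + Matrix.vecMulVec e ((p + q * c - 1) • e - q • v) with hψ
  have hve : v ⬝ᵥ e = c := by simp [he, ← hc]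
  have hee : e ⬝ᵥ e = 1 := by simp [he]
  have hv'2 : v' = w • v + ((1 - w) * c) • e := by
    funext k
    by_cases hk : k = i₁
    · subst hk
      simp [hv', he, ← hc]
      ring
    · simp [hv', he, hk]
  have hy'2 : y' = p • y + (q + (p * w - p) * y i₁) • e := by
    funext k
    by_cases hk : k = i₁
    · subst hk
      simp [hy', he]
      ring
    · simp [hy', he, hk]
  have hv'e : v' ⬝ᵥ e = c := by
    rw [hv'2, add_dotProduct, smul_dotProduct, smul_dotProduct, hve, hee]
    simp
    ring
  have hey : e ⬝ᵥ y = y i₁ := by simp [he]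
  have hvy' : v' ⬝ᵥ y' = 1 := by
    rw [hy'2, dotProduct_add, dotProduct_smul, dotProduct_smul, hv'e]
    rw [hv'2, add_dotProduct, smul_dotProduct, smul_dotProduct, hy, hey]
    simp only [smul_eq_mul]
    linear_combination hpq
  have h1 : Matrix.vecMul v' φ = w • v := by
    rw [hφ, Matrix.vecMul_add, Matrix.vecMul_one, Matrix.vecMul_vecMulVec, dotProduct_smul, hv'e,
      hv'2]
    ext k
    simp
    ring
  have h2 : Matrix.vecMul v ψ = p • v' := by
    rw [hψ, Matrix.vecMul_add, Matrix.vecMul_one, Matrix.vecMul_vecMulVec, hve, hv'2]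
    ext k
    simp
    linear_combination (-(v k) + c * e k) * hpq
  have h3 : φ * ψ = 1 - Matrix.vecMulVec (q • e) v' := by
    rw [hφ, hψ, mul_add, add_mul, add_mul, mul_one, one_mul, mul_one,
      Matrix.vecMulVec_mul_vecMulVec, hee, hv'2]
    ext a b
    simp [Matrix.vecMulVec_apply]
    linear_combination (e a * e b) * hpq
  refine mkREq (Matrix.vecMulVec y' v + φ * (1 - Matrix.vecMulVec y v))
    (Matrix.vecMulVec y v' + ψ * (1 - Matrix.vecMulVec y' v')) ?_ ?_
  · have k1 : Matrix.vecMulVec y' v * Matrix.vecMulVec y v' = Matrix.vecMulVec y' v' := by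
      rw [Matrix.vecMulVec_mul_vecMulVec, hy, one_smul]
    have k2 : Matrix.vecMulVec y' v * ψ = Matrix.vecMulVec y' (p • v') := by
      rw [Matrix.vecMulVec_mul, h2]
    have k3 : Matrix.vecMulVec y' (p • v') * Matrix.vecMulVec y' v'
        = Matrix.vecMulVec y' (p • v') := by
      rw [Matrix.vecMulVec_mul_vecMulVec, smul_dotProduct, hvy', smul_eq_mul, mul_one]
    have k4 : Matrix.vecMulVec y v * Matrix.vecMulVec y v' = Matrix.vecMulVec y v' := by
      rw [Matrix.vecMulVec_mul_vecMulVec, hy, one_smul]
    have k5 : Matrix.vecMulVec y v * ψ = Matrix.vecMulVec y (p • v') := by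
      rw [Matrix.vecMulVec_mul, h2]
    have k6 : Matrix.vecMulVec y (p • v') * Matrix.vecMulVec y' v'
        = Matrix.vecMulVec y (p • v') := by
      rw [Matrix.vecMulVec_mul_vecMulVec, smul_dotProduct, hvy', smul_eq_mul, mul_one]
    have k7 : Matrix.vecMulVec (q • e) v' * Matrix.vecMulVec y' v'
        = Matrix.vecMulVec (q • e) v' := by
      rw [Matrix.vecMulVec_mul_vecMulVec, hvy', one_smul]
    calc (Matrix.vecMulVec y' v + φ * (1 - Matrix.vecMulVec y v))
          * (Matrix.vecMulVec y v' + ψ * (1 - Matrix.vecMulVec y' v'))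
        = Matrix.vecMulVec y' v * Matrix.vecMulVec y v'
          + (Matrix.vecMulVec y' v * ψ - (Matrix.vecMulVec y' v * ψ) * Matrix.vecMulVec y' v')
          + φ * (Matrix.vecMulVec y v' - Matrix.vecMulVec y v * Matrix.vecMulVec y v')
          + ((φ * ψ) * (1 - Matrix.vecMulVec y' v')
          - φ * (Matrix.vecMulVec y v * ψ
            - (Matrix.vecMulVec y v * ψ) * Matrix.vecMulVec y' v')) := by noncomm_ring
      _ = 1 := by
          rw [k1, k2, k3, k4, k5, k6, h3, sub_self, sub_self, sub_self, mul_zero,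
            sub_zero, add_zero, add_zero, sub_mul, one_mul, mul_sub, mul_one, k7, sub_self,
            sub_zero]
          abel
  · rw [Matrix.vecMul_add, ← Matrix.vecMul_vecMul, h1, Matrix.vecMul_vecMulVec, hvy',
      Matrix.vecMul_sub, Matrix.vecMul_one, Matrix.vecMul_vecMulVec, smul_dotProduct, hy]
    ext k
    simp

end basic

/-- B6: lemma W. -/
theorem hB6 : StB6.{u} := by
  intro A _ s a w c₁ c hcop hum
  obtain ⟨p, q, hpq⟩ := hcop
  set v : Unit ⊕ Fin (s + 1) → A := row a (Fin.cons c₁ c : Fin (s + 1) → A) with hv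
  have hv0 : v (Sum.inl ()) = a := rfl
  have hv1 : v (Sum.inr 0) = c₁ := rfl
  have hvs : ∀ j : Fin s, v (Sum.inr j.succ) = c j := fun j => rfl
  have h01 : (Sum.inl () : Unit ⊕ Fin (s + 1)) ≠ Sum.inr 0 := by simp
  set S : Finset (Unit ⊕ Fin (s + 1)) := (Finset.univ.erase (Sum.inr 0)).erase (Sum.inl ()) with hS
  have hScard : S.card = s := by
    rw [hS, Finset.card_erase_of_mem (by simp), Finset.card_erase_of_mem (by simp)]
    simp
  have e1 := stepS v (Sum.inl ()) (Sum.inr 0) h01 p q w hpq S (by simp [hS]) (by simp [hS])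
  rw [hScard] at e1
  set v₁ : Unit ⊕ Fin (s + 1) → A := fun k => if k = Sum.inl () then v k * w ^ s
    else if k ∈ S then v k * p else v k with hv₁
  have hv₁1 : v₁ (Sum.inr 0) = c₁ := by
    simp [hv₁, hS, hv1]
  have hum1 : Um v₁ := um' e1 hum
  have e2 := scale v₁ (Sum.inr 0) p q w (by rw [hv₁1]; exact hpq) hum1
  -- correction by multiples of `c₁`
  have e3 := addv (fun k => if k = Sum.inr 0 then v₁ k else w * v₁ k) (Sum.inr 0)
    (fun k => if k = Sum.inl () then 0 else if k = Sum.inr 0 then 0 else q * v k) (by simp)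
  have key : (fun k => (if k = Sum.inr 0 then v₁ k else w * v₁ k)
      + (if (Sum.inr 0 : Unit ⊕ Fin (s + 1)) = Sum.inr 0 then v₁ (Sum.inr 0)
          else w * v₁ (Sum.inr 0))
        * (if k = Sum.inl () then 0 else if k = Sum.inr 0 then 0 else q * v k))
      = row (a * w ^ (s + 1)) (Fin.cons c₁ c : Fin (s + 1) → A) := by
    funext k
    rcases k with u | k
    · simp [hv₁, row, hv0]
      ring
    · refine Fin.cases ?_ (fun j => ?_) k
      · simp [hv₁1, row]
      · have h1 : (Sum.inr j.succ : Unit ⊕ Fin (s + 1)) ∈ S := by simp [hS]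
        have h2 : v₁ (Sum.inr j.succ) = c j * p := by
          simp only [hv₁]
          rw [if_neg (by simp), if_pos h1, hvs]
        rw [hv₁1, h2, hvs]
        simp only [row, Sum.elim_inr, Fin.cons_succ, reduceCtorEq, if_false, Sum.inr.injEq,
          Fin.succ_ne_zero, if_true]
        linear_combination (c j) * hpq
  rw [key] at e3
  exact trans' (symm' e3) (trans' e2 (symm' e1))

end Pool.Agent.Helper15.GU
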