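import Pool.Agent.Helper96.GU.St

/-!
Project GU: module DUA (duality).
-/

set_option autoImplicit false

namespace Pool.Agent.Helper15.GU

open Pool.Agent.Helper96.UT hiding StTOP TopV TopE tht Bd VC EC
open Pool.Agent.Helper96.GU

section

variable {α : Type} (Z : Cyc α) (Ω Θ : Type) [MulAction (FreeGroup α) Ω] [MulAction (FreeGroup α) Θ]

private theorem TT_inl_DUA (e : (Ω × Θ) × α) :
    TT Z Ω Θ (Finsupp.single (Sum.inl e) 1) = Finsupp.single (Sum.inl (e.1.1, e.2)) 1 +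
        (Finsupp.single (Sum.inr (act e.1 (lt (e.2, true)))) 1 - Finsupp.single (Sum.inr e.1) 1) := by
  unfold TT
  rw [Finsupp.linearCombination_single, one_smul]

private theorem TT_inr_DUA (p : Ω) :
    TT Z Ω Θ (Finsupp.single (Sum.inr p) 1) =
      Sa (fun e : Ω × α => Finsupp.single (Sum.inl e) (1 : ℚ)) p Z.s := by
  unfold TT
  rw [Finsupp.linearCombination_single, one_smul]

end

/-- value of a linear functional on a function with finite support -/
private theorem lin_sum_DUA {I : Type} (F : (I →₀ ℚ) →ₗ[ℚ] ℚ) (x : I →₀ ℚ) :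
    F x = ∑ i ∈ x.support, x i * F (Finsupp.single i 1) := by
  conv_lhs => rw [← Finsupp.sum_single x]
  rw [Finsupp.sum, map_sum]
  refine Finset.sum_congr rfl fun i _ => ?_
  rw [← smul_eq_mul, ← map_smul, Finsupp.smul_single, smul_eq_mul, mul_one]

theorem tDUA : StDUA := by
  classical
  intro α Z Ω Θ _ _ o B D
  constructor
  · intro hR ψ κ
    obtain ⟨T, hT⟩ : ∃ T, T = TT Z Ω Θ := ⟨_, rfl⟩
    obtain ⟨K, hK⟩ : ∃ K, K = Finsupp.supported ℚ ℚ (Gd Z o B D) := ⟨_, rfl⟩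
    have hinj : LinearMap.ker (T.domRestrict K) = ⊥ := by
      rw [LinearMap.ker_eq_bot']
      intro x hx
      apply Subtype.ext
      apply hR x.1
      · have h1 : ∀ y ∈ K, ∀ i ∈ y.support, i ∈ Gd Z o B D := by
          intro y hy i hi
          rw [hK, Finsupp.mem_supported] at hy
          exact hy hi
        exact h1 x.1 x.2
      · rw [← hT]
        exact hx
    obtain ⟨S, hS⟩ := LinearMap.exists_leftInverse_of_injective (T.domRestrict K) hinj
    obtain ⟨ξ, hξ⟩ : ∃ ξ : (((((Ω × Θ) × α) ⊕ Ω) →₀ ℚ) →ₗ[ℚ] ℚ),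
      ξ = Finsupp.linearCombination ℚ (fun i => Sum.elim ψ κ i) := ⟨_, rfl⟩
    obtain ⟨Φ, hΦ⟩ : ∃ Φ : ((((Ω × α) ⊕ (Ω × Θ)) →₀ ℚ) →ₗ[ℚ] ℚ), Φ = ξ ∘ₗ (K.subtype ∘ₗ S) :=
      ⟨_, rfl⟩
    have key : ∀ x ∈ K, Φ (T x) = ξ x := by
      intro x hx
      have h1 : S (T.domRestrict K ⟨x, hx⟩) = ⟨x, hx⟩ := by
        have := LinearMap.congr_fun hS ⟨x, hx⟩
        exact this
      rw [hΦ]
      change ξ ((S (T.domRestrict K ⟨x, hx⟩)).1) = ξ x
      rw [h1]
    refine ⟨fun e => Φ (Finsupp.single (Sum.inl e) 1), fun x => Φ (Finsupp.single (Sum.inr x) 1),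
      ?_, ?_⟩
    · intro e he hc
      have hmem : Finsupp.single (Sum.inl e) (1 : ℚ) ∈ K := by
        rw [hK]
        exact Finsupp.single_mem_supported ℚ 1 (Or.inl ⟨e, rfl, he, hc⟩)
      have h1 := key _ hmem
      rw [hT, TT_inl_DUA, map_add, map_sub, hξ, Finsupp.linearCombination_single, one_smul] at h1
      exact h1.symm
    · intro p hp
      have hmem : Finsupp.single (Sum.inr p) (1 : ℚ) ∈ K := by
        rw [hK]
        exact Finsupp.single_mem_supported ℚ 1 (Or.inr ⟨p, hp, rfl⟩)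
      have h1 := key _ hmem
      rw [hT, TT_inr_DUA, hξ, Finsupp.linearCombination_single, one_smul] at h1
      have h2 : Sum.elim ψ κ (Sum.inr p) = κ p := rfl
      rw [h2] at h1
      rw [← h1]
      exact Sa_map Φ.toAddMonoidHom _ p Z.s
  · intro hR x hx hTx
    by_contra hne
    obtain ⟨i₀, hi₀⟩ := Finsupp.support_nonempty_iff.2 hne
    obtain ⟨φ, g, h1, h2⟩ := hR (fun e => if Sum.inl e = i₀ then 1 else 0)
      (fun p => if Sum.inr p = i₀ then 1 else 0)
    obtain ⟨Φ, hΦ⟩ : ∃ Φ : ((((Ω × α) ⊕ (Ω × Θ)) →₀ ℚ) →ₗ[ℚ] ℚ),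
      Φ = Finsupp.linearCombination ℚ (fun i => Sum.elim φ g i) := ⟨_, rfl⟩
    have hl : ∀ e, Φ (Finsupp.single (Sum.inl e) 1) = φ e := by
      intro e
      rw [hΦ, Finsupp.linearCombination_single, one_smul]
      rfl
    have hr : ∀ y, Φ (Finsupp.single (Sum.inr y) 1) = g y := by
      intro e
      rw [hΦ, Finsupp.linearCombination_single, one_smul]
      rfl
    have hval : ∀ i ∈ Gd Z o B D, Φ (TT Z Ω Θ (Finsupp.single i 1)) = if i = i₀ then 1 else 0 := by
      rintro i (⟨e, rfl, he, hc⟩ | ⟨p, hp, rfl⟩)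
      · rw [TT_inl_DUA, map_add, map_sub, hl, hr, hr]
        exact (h1 e he hc).symm
      · rw [TT_inr_DUA]
        have h3 := Sa_map Φ.toAddMonoidHom
          (fun e : Ω × α => Finsupp.single (Sum.inl e : (Ω × α) ⊕ (Ω × Θ)) (1 : ℚ)) p Z.s
        have h4 : (fun e : Ω × α => Φ.toAddMonoidHom
            (Finsupp.single (Sum.inl e : (Ω × α) ⊕ (Ω × Θ)) (1 : ℚ))) = φ := by
          funext e
          exact hl e
        rw [h4] at h3
        rw [← h2 p hp]
        exact h3.symm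
    have h5 := lin_sum_DUA (Φ ∘ₗ TT Z Ω Θ) x
    have h6 : (Φ ∘ₗ TT Z Ω Θ) x = 0 := by
      change Φ (TT Z Ω Θ x) = 0
      rw [hTx, map_zero]
    rw [h6] at h5
    have h7 : ∑ i ∈ x.support, x i * (Φ ∘ₗ TT Z Ω Θ) (Finsupp.single i 1) = x i₀ := by
      rw [Finset.sum_eq_single i₀]
      · change x i₀ * Φ (TT Z Ω Θ (Finsupp.single i₀ 1)) = x i₀
        rw [hval i₀ (hx i₀ hi₀), if_pos rfl, mul_one]
      · intro i hi hne'
        change x i * Φ (TT Z Ω Θ (Finsupp.single i 1)) = 0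
        rw [hval i (hx i hi), if_neg hne', mul_zero]
      · intro h
        exact absurd hi₀ h
    rw [h7] at h5
    exact (Finsupp.mem_support_iff.1 hi₀) h5.symm

end Pool.Agent.Helper15.GU
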