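import Pool.Agent.Helper91.GU.StE

/-!
# Project GU, module E12: the framing
-/

set_option autoImplicit false

namespace Pool.Agent.Helper15.GU

open Polynomial
open Pool.Agent.Helper91.GU

universe u

theorem vecMul_transvection' {A : Type u} [CommRing A] {n : Type} [Fintype n] [DecidableEq n]
    (v : n → A) (i j : n) (c : A) :
    Matrix.vecMul v (Matrix.transvection i j c) = fun k => v k + if k = j then v i * c else 0 := by
  ext k
  rw [Matrix.transvection, Matrix.vecMul_add, Matrix.vecMul_one, Pi.add_apply]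
  congr 1
  simp only [Matrix.vecMul, dotProduct, Matrix.single_apply]
  by_cases hk : k = j
  · subst hk
    simp
  · have : ¬ (j = k) := fun h => hk h.symm
    simp [hk, this]

/-- subtracting multiples of the entry `i₀` from the entries in `S` is elementary -/
theorem exists_elem {A : Type u} [CommRing A] {n : Type} [Fintype n] [DecidableEq n]
    (i₀ : n) (l : n → A) (S : Finset n) : i₀ ∉ S →
    ∃ e ∈ Elem n A, ∀ v : n → A,
      Matrix.vecMul v e = fun k => if k ∈ S then v k - l k * v i₀ else v k := by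
  induction S using Finset.induction_on with
  | empty =>
    intro _
    exact ⟨1, Submonoid.one_mem _, fun v => by simp⟩
  | insert j S hj ih =>
    intro h0
    rw [Finset.mem_insert, not_or] at h0
    obtain ⟨e, he, hv⟩ := ih h0.2
    refine ⟨e * Matrix.transvection i₀ j (- l j), Submonoid.mul_mem _ he
      (Submonoid.subset_closure ⟨i₀, j, - l j, h0.1, rfl⟩), fun v => ?_⟩
    rw [← Matrix.vecMul_vecMul, hv, vecMul_transvection']
    funext k
    by_cases hkj : k = j
    · subst hkj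
      simp only [hj, h0.2, if_false, if_true, Finset.mem_insert, true_or]
      ring
    · simp [hkj]

theorem vecMul_mem_idl {A : Type u} [CommRing A] {n : Type} [Fintype n] (c : n → A)
    (M : Matrix n n A) (j : n) : Matrix.vecMul c M j ∈ idl c := by
  simp only [Matrix.vecMul, dotProduct]
  exact Ideal.sum_mem _ (fun i _ => Ideal.mul_mem_right _ _ (Ideal.subset_span ⟨i, rfl⟩))

/-- E12: the framing. -/
theorem hE12 (hE1 : StE1.{u}) (hE2 : StE2.{u}) : StE12.{u} := by
  intro L _ _ s c hdim k₀ a hY k hk0 hk1 hku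
  obtain ⟨e₁, he₁, hγ⟩ := hE1 L s c hdim k (a k) hku (hY k hk0)
  have hw : ∀ j : Fin s, ∃ N₀ : ℕ, ∀ N, N₀ ≤ N → ∃ (l : L[X]) (b : L), C b ∈ idl c ∧
      Matrix.vecMul c e₁ j.succ - l * (1 - C (a k) * X ^ k) - C b * X ^ N ∈ idl c ^ 2 :=
    fun j => hE2 L (idl c) k₀ a hY k hk0 hk1 hku _ (vecMul_mem_idl c e₁ j.succ)
  choose N₀ hN₀ using hw
  refine ⟨Finset.univ.sup N₀, fun N hN => ?_⟩
  have hw2 : ∀ j : Fin s, ∃ (l : L[X]) (b : L), C b ∈ idl c ∧
      Matrix.vecMul c e₁ j.succ - l * (1 - C (a k) * X ^ k) - C b * X ^ N ∈ idl c ^ 2 :=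
    fun j => hN₀ j N (le_trans (Finset.le_sup (Finset.mem_univ j)) hN)
  choose l b hb hlb using hw2
  obtain ⟨e₂, he₂, hv₂⟩ := exists_elem (A := L[X]) (0 : Fin (s + 1))
    (Fin.cons 0 l : Fin (s + 1) → L[X]) (Finset.univ.erase 0) (by simp)
  refine ⟨e₁ * e₂, Submonoid.mul_mem _ he₁ he₂, b, hb, fun j => ?_⟩
  rw [← Matrix.vecMul_vecMul, hv₂]
  refine Fin.cases ?_ (fun i => ?_) j
  · simpa using hγ
  · have h1 : (i.succ : Fin (s + 1)) ∈ (Finset.univ.erase 0 : Finset (Fin (s + 1))) := by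
      simp [Fin.succ_ne_zero]
    simp only [h1, if_true, Fin.cons_succ]
    have h2 : Matrix.vecMul c e₁ i.succ - l i * Matrix.vecMul c e₁ 0 - C (b i) * X ^ N
        = (Matrix.vecMul c e₁ i.succ - l i * (1 - C (a k) * X ^ k) - C (b i) * X ^ N)
          - l i * (Matrix.vecMul c e₁ 0 - (1 - C (a k) * X ^ k)) := by ring
    rw [h2]
    exact Ideal.sub_mem _ (hlb i) (Ideal.mul_mem_left _ _ hγ)

end Pool.Agent.Helper15.GU
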