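import Pool.Agent.Helper96.GU.St

/-!
Project GU: module LA (linear algebra, Euler characteristic).
-/

set_option autoImplicit false

namespace Pool.Agent.Helper15.GU

open Pool.Agent.Helper96.UT hiding StTOP TopV TopE tht Bd VC EC
open Pool.Agent.Helper96.GU

theorem tLA : StLA := by
  classical
  intro α Ω _ E V ι _ Λ hV hEV hH
  -- extension by zero
  let ext : ({e // e ∈ E} → ℚ) →ₗ[ℚ] (Ω × α → ℚ) :=
    { toFun := fun ξ e => if h : e ∈ E then ξ ⟨e, h⟩ else 0
      map_add' := by
        intro ξ ζ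
        funext e
        by_cases h : e ∈ E
        · simp [h]
        · simp [h]
      map_smul' := by
        intro c ξ
        funext e
        by_cases h : e ∈ E
        · simp [h]
        · simp [h] }
  have hext : ∀ (ξ : {e // e ∈ E} → ℚ) (e : Ω × α) (h : e ∈ E), ext ξ e = ξ ⟨e, h⟩ := by
    intro ξ e h
    change (if h : e ∈ E then ξ ⟨e, h⟩ else 0) = _
    rw [dif_pos h]
  have hext0 : ∀ (ξ : {e // e ∈ E} → ℚ) (e : Ω × α), e ∉ E → ext ξ e = 0 := by
    intro ξ e h
    change (if h : e ∈ E then ξ ⟨e, h⟩ else 0) = _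
    rw [dif_neg h]
  let Λ' : ({e // e ∈ E} → ℚ) →ₗ[ℚ] (ι → ℚ) := Λ ∘ₗ ext
  let δ : ({x // x ∈ V} → ℚ) →ₗ[ℚ] ({e // e ∈ E} → ℚ) :=
    { toFun := fun f e => f ⟨act e.1.1 (lt (e.1.2, true)), (hEV e.1.1 e.1.2 e.2).2⟩ -
        f ⟨e.1.1, (hEV e.1.1 e.1.2 e.2).1⟩
      map_add' := by
        intro f g
        funext e
        simp only [Pi.add_apply]
        ring
      map_smul' := by
        intro c f
        funext e
        simp only [Pi.smul_apply, smul_eq_mul, RingHom.id_apply]
        ring }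
  have hker : LinearMap.ker Λ' ≤ LinearMap.range δ := by
    intro ξ hξ
    rw [LinearMap.mem_ker] at hξ
    obtain ⟨f, hf⟩ := hH (ext ξ) (hext0 ξ) hξ
    refine ⟨fun x => f x.1, ?_⟩
    funext e
    have h1 := hf e.1.1 e.1.2 e.2
    rw [hext ξ _ e.2] at h1
    exact h1.symm
  -- dimension of the kernel
  have hδ := LinearMap.finrank_range_add_finrank_ker δ
  have hΛ := LinearMap.finrank_range_add_finrank_ker Λ'
  rw [Module.finrank_pi, Fintype.card_coe] at hδ hΛ
  have hker1 : 1 ≤ Module.finrank ℚ (LinearMap.ker δ) := by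
    obtain ⟨x0, hx0⟩ := hV
    have h1 : (fun _ => 1 : {x // x ∈ V} → ℚ) ∈ LinearMap.ker δ := by
      rw [LinearMap.mem_ker]
      funext e
      change (1 : ℚ) - 1 = 0
      norm_num
    have h2 : (⟨(fun _ => 1 : {x // x ∈ V} → ℚ), h1⟩ : LinearMap.ker δ) ≠ 0 := by
      intro h
      have h3 := congrArg Subtype.val h
      have h4 := congrFun h3 ⟨x0, hx0⟩
      change (1 : ℚ) = 0 at h4
      norm_num at h4
    haveI : Nontrivial (LinearMap.ker δ) := ⟨⟨_, _, h2⟩⟩
    exact Module.finrank_pos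
  have hle : Module.finrank ℚ (LinearMap.ker Λ') ≤ Module.finrank ℚ (LinearMap.range δ) :=
    Submodule.finrank_mono hker
  have hι : Module.finrank ℚ (LinearMap.range Λ') ≤ Fintype.card ι := by
    have := Submodule.finrank_le (LinearMap.range Λ')
    rwa [Module.finrank_pi] at this
  refine ⟨by omega, ?_⟩
  intro hVι t
  have htop : LinearMap.range Λ' = ⊤ := by
    apply Submodule.eq_top_of_finrank_eq
    rw [Module.finrank_pi]
    omega
  have ht : t ∈ LinearMap.range Λ' := by rw [htop]; trivial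
  obtain ⟨ξ, hξ⟩ := ht
  exact ⟨ext ξ, hext0 ξ, hξ⟩

end Pool.Agent.Helper15.GU
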